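import Pool.Agent.MP_bd94e8_al.H89.Spec

/-! Row RIG: connections give positive tests. -/

set_option autoImplicit false
set_option linter.unusedSectionVars false

namespace Pool.Agent.MP_bd94e8_al.H89

open Module Function Finset H83 H83.H

namespace RigA

section count
variable {C0 k : Type} [CommRing C0] [IsArtinianRing C0] [Field k] [Algebra C0 k]
  [Module.Finite C0 k]

theorem len_k (M : Type) [AddCommGroup M] [Module k M] [Module C0 M] [IsScalarTower C0 k M]
    [Module.Finite k M] : length C0 M = (finrank k M : ℕ∞) * length C0 k := by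
  rw [((Module.finBasis k M).equivFun.restrictScalars C0).length_eq, length_pi_of_fintype]
  simp

/-- The generic linear combination. -/
noncomputable def gm {M W : Type} [AddCommGroup M] [Module C0 M] [AddCommGroup W] [Module C0 W]
    {n : ℕ} (θ : Fin n → (M →ₗ[C0] W)) : H C0 M →ₗ[K C0] H C0 W :=
  ∑ j : Fin n, tv C0 j • H.map (θ j)

theorem gm_apply {M W : Type} [AddCommGroup M] [Module C0 M] [AddCommGroup W] [Module C0 W]
    {n : ℕ} (θ : Fin n → (M →ₗ[C0] W)) (y : H C0 M) :
    gm θ y = ∑ j : Fin n, tv C0 j • H.map (θ j) y := by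
  simp [gm]

theorem lt_of_gm {M W : Type} [AddCommGroup M] [Module k M] [Module C0 M] [IsScalarTower C0 k M]
    [Module.Finite k M] [AddCommGroup W] [Module k W] [Module C0 W] [IsScalarTower C0 k W]
    [Module.Finite k W] {n : ℕ} (θ : Fin n → (M →ₗ[C0] W)) (hs : Surjective (gm θ)) (m : M)
    (hm : m ≠ 0) (h0 : ∀ j, θ j m = 0) : finrank k W < finrank k M := by
  have : Module.Finite C0 M := Module.Finite.trans k M
  have : Module.Finite C0 W := Module.Finite.trans k W
  have h1 := length_eq_add_of_exact _ _ (LinearMap.ker (gm θ)).subtype_injective hs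
    (LinearMap.exact_subtype_ker_map (gm θ))
  have hk : sgl C0 M C0 m ∈ LinearMap.ker (gm θ) := by
    rw [LinearMap.mem_ker, gm_apply]
    exact sum_eq_zero fun j _ => by rw [map_sgl (A' := C0), h0, map_zero, smul_zero]
  have : Nontrivial (LinearMap.ker (gm θ)) := ⟨⟨_, hk⟩, 0, fun e => hm (by
    have := congrArg (fun y : LinearMap.ker (gm θ) => cf y.1 0) e
    simpa [cf_sgl] using this)⟩
  have h2 : 0 < length (K C0) (LinearMap.ker (gm θ)) := length_pos
  rw [len_eq, len_eq, len_k (k := k) M, len_k (k := k) W] at h1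
  have h3 : length C0 k ≠ ⊤ := length_ne_top
  obtain ⟨c, hc⟩ := ENat.ne_top_iff_exists.1 h3
  rw [← hc] at h1
  by_contra hlt
  have h4 : (finrank k M : ℕ∞) * c ≤ (finrank k W : ℕ∞) * c := by
    exact_mod_cast Nat.mul_le_mul_right c (not_lt.1 hlt)
  rw [h1] at h4
  have h5 : (finrank k W : ℕ∞) * c ≠ ⊤ := by exact_mod_cast ENat.natCast_ne_top _
  have h6 := (ENat.add_le_add_iff_right h5).1 (h4.trans_eq (zero_add _).symm)
  exact absurd h2 (not_lt.2 h6)

end count

section ext
variable {C0 C : Type} [CommRing C0] [Field C] [Algebra C0 C] {α : Type}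

open Classical in
/-- Extension by zero. -/
noncomputable def ez (p : α → Prop) (w : {a // p a} → C) (a : α) : C :=
  if h : p a then w ⟨a, h⟩ else 0

theorem ez_pos {p : α → Prop} (w : {a // p a} → C) (x : {a // p a}) : ez p w x.1 = w x :=
  dif_pos x.2

theorem ez_neg {p : α → Prop} (w : {a // p a} → C) {a : α} (h : ¬ p a) : ez p w a = 0 :=
  dif_neg h

theorem ez_add {p : α → Prop} (w w' : {a // p a} → C) (a : α) :
    ez p (w + w') a = ez p w a + ez p w' a := by
  unfold ez; split_ifs <;> simp

theorem ez_smul {p : α → Prop} (c : C0) (w : {a // p a} → C) (a : α) :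
    ez p (c • w) a = c • ez p w a := by
  unfold ez; split_ifs <;> simp

end ext

section main
variable {C0 k C F : Type} [CommRing C0] [Field k] [Field C] [Field F]
  [Algebra C0 k] [Algebra k C] [Algebra C0 C] [IsScalarTower C0 k C] [Algebra C F] [Algebra C0 F]
  [IsScalarTower C0 C F] {T I O : Type} [Fintype T] [Fintype I] [Fintype O]
  (tv' : T → I) (tp : T → O) (d : I → ℕ) (v : O → ℕ)

/-- The coordinates of the vertices. -/
abbrev I' : Type := Σ i, Fin (d i)

/-- The coordinates of the peaks. -/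
abbrev O' : Type := Σ o, Fin (v o)

/-- The admissible coordinates of a family. -/
def PX (x : I' d × T × O' v) : Prop := tv' x.2.1 = x.1.1 ∧ tp x.2.1 = x.2.2.1

/-- The admissible coordinates of a graded matrix. -/
def PY (y : O' v × O' v) : Prop := y.1.1 = y.2.1

/-- Families. -/
abbrev W0 (C : Type) : Type := {x // PX tv' tp d v x} → C

/-- Graded matrices. -/
abbrev G0 (C : Type) : Type := {y // PY v y} → C

/-- Block matrices. -/
abbrev S0 (S : I → I → Submodule k (Matrix T T C)) : Type := ∀ z : I' d × I' d, S z.2.1 z.1.1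

variable {tv' tp d v}

/-- The action of graded matrices. -/
noncomputable def gact (w : W0 tv' tp d v C) : G0 v C →ₗ[C0] W0 tv' tp d v C where
  toFun g x := ∑ a, ez _ g (x.1.2.2, a) * ez _ w (x.1.1, x.1.2.1, a)
  map_add' g g' := by ext x; simp [ez_add, add_mul, sum_add_distrib]
  map_smul' c g := by ext x; simp [ez_smul, smul_sum]

/-- The action of block matrices. -/
noncomputable def hact (S : I → I → Submodule k (Matrix T T C)) (w : W0 tv' tp d v C) :
    S0 d S →ₗ[C0] W0 tv' tp d v C where
  toFun h x := ∑ s, ∑ t, (h (x.1.1, s)).1 x.1.2.1 t * ez _ w (s, t, x.1.2.2)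
  map_add' g g' := by ext x; simp [add_mul, sum_add_distrib]
  map_smul' c g := by ext x; simp [smul_sum]

/-- The vector of a family. -/
noncomputable def nu {R : Type} (β : Matrix R T F) (s : I' d) (p : R) (w : W0 tv' tp d v C) :
    O' v → F := fun a => ∑ t, β p t * algebraMap C F (ez _ w (s, t, a))

open Classical in
/-- A coordinate block. -/
noncomputable def mu (lam : F →ₗ[C] C) (s : I' d) (t : T) :
    (O' v → F) →ₗ[C0] W0 tv' tp d v C where
  toFun y x := if x.1.1 = s ∧ x.1.2.1 = t then lam (y x.1.2.2) else 0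
  map_add' y y' := by ext x; simp only [Pi.add_apply]; split_ifs <;> simp
  map_smul' c y := by
    ext x; simp only [Pi.smul_apply, RingHom.id_apply]; split_ifs <;> simp

open Classical in
/-- A column of a graded matrix. -/
noncomputable def col (lam : F →ₗ[C] C) (a : O' v) : (O' v → F) →ₗ[C0] G0 v C where
  toFun y z := if z.1.2 = a then lam (y z.1.1) else 0
  map_add' y y' := by ext x; simp only [Pi.add_apply]; split_ifs <;> simp
  map_smul' c y := by
    ext x; simp only [Pi.smul_apply, RingHom.id_apply]; split_ifs <;> simp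

/-- The generic vector. -/
noncomputable def gen {n : ℕ} (w : Fin n → W0 tv' tp d v C) {R : Type} (β : Matrix R T F)
    (s : I' d) : R → H C0 (O' v → F) :=
  fun p => ∑ j : Fin n, tv C0 j • sgl C0 _ F (nu β s p (w j))

theorem act_gen {n : ℕ} (w : Fin n → W0 tv' tp d v C) {R R' : Type} [Fintype R]
    (b : Matrix R' R F) (β : Matrix R T F) (s : I' d) :
    act b (gen (C0 := C0) w β s) = gen w (b * β) s := by
  funext q
  simp only [act, gen, smul_sum]
  rw [sum_comm]
  refine sum_congr rfl fun j _ => ?_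
  simp only [smul_comm (b q _), ← smul_sum, ← map_smul, ← map_sum]
  congr 2
  funext a
  simp only [nu, Finset.sum_apply, Pi.smul_apply, smul_eq_mul, Matrix.mul_apply, mul_sum, sum_mul,
    mul_assoc]
  rw [sum_comm]

/-- The action of a matrix is linear over the Hahn series. -/
noncomputable def actL {R R' : Type} [Fintype R] (b : Matrix R' R F) :
    (R → H C0 (O' v → F)) →ₗ[K C0] (R' → H C0 (O' v → F)) where
  toFun := act b
  map_add' u u' := by funext q; simp [act, sum_add_distrib]
  map_smul' c u := by funext q; simp [act, smul_sum, smul_comm (b q _) c]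

theorem mu_sum (lam : F →ₗ[C] C) (s : I' d) (y : T → O' v → F) (x : {x // PX tv' tp d v x}) :
    (∑ t, mu (C0 := C0) lam s t (y t)) x =
      open Classical in if x.1.1 = s then lam (y x.1.2.1 x.1.2.2) else 0 := by
  classical
  rw [Finset.sum_apply, sum_eq_single x.1.2.1]
  · simp [mu]
  · intro t _ ht
    simp [mu, Ne.symm ht]
  · simp

theorem mu_sum2 (lam : F →ₗ[C] C) (y : I' d → T → O' v → F) (x : {x // PX tv' tp d v x}) :
    (∑ s, ∑ t, mu (C0 := C0) lam s t (y s t)) x = lam (y x.1.1 x.1.2.1 x.1.2.2) := by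
  classical
  rw [Finset.sum_apply]
  simp only [mu_sum]
  rw [sum_eq_single x.1.1] <;> simp +contextual [eq_comm]

theorem mu_zero (lam : F →ₗ[C] C) (s : I' d) (t : T) (h : tv' t ≠ s.1) :
    (mu lam s t : (O' v → F) →ₗ[C0] W0 tv' tp d v C) = 0 := by
  ext1 y
  funext x
  exact if_neg fun e => h (by rw [← e.1, ← e.2]; exact x.2.1)

theorem nu_one [DecidableEq T] {β : Matrix T T F}
    (hβ : ∀ t t', tv' t = tv' t' → β t t' = (1 : Matrix T T F) t t') (s : I' d) (t : T)
    (h : tv' t = s.1) (w : W0 tv' tp d v C) (a : O' v) :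
    nu β s t w a = algebraMap C F (ez _ w (s, t, a)) := by
  unfold nu
  rw [sum_eq_single t]
  · rw [hβ t t rfl]; simp
  · intro t' _ ht
    by_cases e : tv' t' = s.1
    · rw [hβ t t' (h.trans e.symm), Matrix.one_apply_ne ht.symm, zero_mul]
    · rw [ez_neg _ fun e' => e e'.1, map_zero, mul_zero]
  · simp

theorem hact_single (lam : F →ₗ[C] C) (S : I → I → Submodule k (Matrix T T C))
    (β : Matrix T T F) (s s' : I' d)
    (hβ : mask (fun t' t => tv' t = s'.1 ∧ tv' t' = s.1 ∧ tp t' = tp t) (β.map lam) ∈ S s'.1 s.1)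
    (w : W0 tv' tp d v C) :
    open Classical in hact (C0 := C0) S w (Pi.single (s, s') ⟨_, hβ⟩) =
      ∑ t, mu (C0 := C0) lam s t (nu β s' t w) := by
  classical
  funext x
  rw [mu_sum]
  change ∑ s, ∑ t, _ = _
  split_ifs with e
  · subst e
    rw [sum_eq_single s']
    · simp only [Pi.single_eq_same, nu, map_sum]
      refine sum_congr rfl fun t _ => ?_
      by_cases h : PX tv' tp d v (s', t, x.1.2.2)
      · rw [mask_pos (s := fun t' t => tv' t = s'.1 ∧ tv' t' = x.1.1.1 ∧ tp t' = tp t) _
          ⟨h.1, x.2.1, x.2.2.trans h.2.symm⟩, mul_comm (β _ _), ← Algebra.smul_def, map_smul,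
          smul_eq_mul, mul_comm]
        rfl
      · simp [ez_neg _ h]
    · intro s'' _ hs
      rw [Pi.single_eq_of_ne (fun e => hs (congrArg Prod.snd e))]
      simp
    · simp
  · refine sum_eq_zero fun s'' _ => ?_
    rw [Pi.single_eq_of_ne (fun e' => e (congrArg Prod.fst e'))]
    simp

theorem surj [IsArtinianRing C0] [Module.Finite C0 F] [Module.Finite C0 C] [DecidableEq T]
    {Pt : Type} [Fintype Pt] [DecidableEq Pt] [Algebra k F] (B : Subalgebra k (Matrix Pt Pt F))
    (hc : Conn C0 (B : Set (Matrix Pt Pt F))) (lam : F →ₗ[C] C) (h1 : lam 1 = 1)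
    (α : Matrix Pt T F) (γ : Matrix T Pt F)
    (hγ : ∀ t t', tv' t = tv' t' → (γ * α) t t' = (1 : Matrix T T F) t t')
    (S : I → I → Submodule k (Matrix T T C))
    (hS : ∀ i j, ∀ b ∈ B,
      mask (fun t' t => tv' t = i ∧ tv' t' = j ∧ tp t' = tp t) ((γ * b * α).map lam) ∈ S i j)
    {n : ℕ} (w : Fin n → W0 tv' tp d v C) (hw : Submodule.span C0 (Set.range w) = ⊤) :
    Surjective (gm fun j => (-gact (C0 := C0) (w j)).coprod (hact (C0 := C0) S (w j))) := by
  classical
  set Θ := gm fun j => (-gact (C0 := C0) (w j)).coprod (hact (C0 := C0) S (w j)) with hΘ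
  intro u
  change u ∈ LinearMap.range Θ
  obtain ⟨c, rfl⟩ := exists_sum (A := C0) w u fun _ => hw ▸ trivial
  refine Submodule.sum_mem _ fun i _ => Submodule.smul_mem _ _
    ((Submodule.smul_mem_iff_of_isUnit _ (tv_unit i)).1 ?_)
  let U : Submodule (K C0) (Pt → H C0 (O' v → F)) :=
    Submodule.span _ {x | ∃ b ∈ B, ∃ s, x = gen w (b * α) s}
  obtain ⟨D, hD, hU⟩ := hc (H C0 (O' v → F))
    (fun c x => by rw [algebraMap_smul, algebraMap_smul]) U.toAddSubgroup
    (fun b hb u hu => by
      have : U ≤ U.comap (actL b) := Submodule.span_le.2 (by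
        rintro _ ⟨b', hb', s, rfl⟩
        refine Submodule.subset_span ⟨b * b', B.mul_mem hb hb', s, ?_⟩
        rw [Matrix.mul_assoc]
        exact act_gen w b _ s)
      exact this hu)
    (fun c u hu => U.smul_mem c hu) i
  let Λ : I' d → (Pt → H C0 (O' v → F)) →ₗ[K C0] H C0 (W0 tv' tp d v C) := fun s =>
    ∑ t, H.map (mu lam s t) ∘ₗ LinearMap.proj t ∘ₗ actL γ
  have hΛ : ∀ s u, Λ s u = ∑ t, H.map (mu lam s t) (act γ u t) := fun s u => by
    simp only [Λ, LinearMap.sum_apply]; rfl
  have hΛU : ∀ s, U ≤ (LinearMap.range Θ).comap (Λ s) := fun s => Submodule.span_le.2 (by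
    rintro _ ⟨b, hb, s', rfl⟩
    refine ⟨sgl C0 _ C0 (0, Pi.single (s, s') ⟨_, hS s'.1 s.1 b hb⟩), ?_⟩
    rw [hΛ, act_gen, hΘ, gm_apply, ← Matrix.mul_assoc]
    simp only [gen, map_sum, map_smul, map_sgl (A' := C0)]
    rw [sum_comm]
    refine sum_congr rfl fun j _ => ?_
    rw [← smul_sum, ← map_sum, LinearMap.coprod_apply, map_zero, zero_add, hact_single])
  let g : H C0 (G0 v C) := ∑ a, H.map (col lam a) (D (sgl C0 _ F (Pi.single a 1)))
  have key : ∑ s, Λ s (fun p => D (gen w α s p)) =
      tv C0 i • sgl C0 _ C0 (w i) - Θ (H.map (LinearMap.inl C0 _ _) g) := by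
    have e1 : ∀ s t, H.map (mu (C0 := C0) (tv' := tv') (tp := tp) lam s t)
        (act γ (fun p => D (gen w α s p)) t) =
        tv C0 i • sgl C0 _ C0 (mu (C0 := C0) lam s t
          fun a => algebraMap C F (ez _ (w i) (s, t, a))) +
        ∑ j : Fin n, tv C0 j • H.map (mu lam s t)
          (D (sgl C0 _ F fun a => algebraMap C F (ez _ (w j) (s, t, a)))) := fun s t => by
      by_cases h : tv' t = s.1
      · have e2 : act γ (fun p => D (gen w α s p)) t = D (gen w (γ * α) s t) := by
          rw [← act_gen]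
          simp [act]
        have e3 : ∀ j, nu (γ * α) s t (w j) = fun a => algebraMap C F (ez _ (w j) (s, t, a)) :=
          fun j => funext (nu_one hγ s t h (w j))
        rw [e2]
        simp only [gen, e3, map_sum, hD, thK_tv, map_add, map_smul, sum_add_distrib, ite_smul,
          zero_smul, Fin.val_inj, sum_ite_eq, mem_univ, if_true, map_sgl (A' := C0)]
      · have e0 : ∀ y, H.map (0 : (O' v → F) →ₗ[C0] W0 tv' tp d v C) y = 0 := fun y => by
          ext; simp
        simp [mu_zero lam s t h, e0]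
    have e4 : ∀ c : C, lam (algebraMap C F c) = c := fun c => by
      rw [Algebra.algebraMap_eq_smul_one, map_smul, h1, smul_eq_mul, mul_one]
    simp only [hΛ, e1, sum_add_distrib, ← smul_sum, ← map_sum]
    rw [sub_eq_add_neg]
    congr 1
    · congr 2
      funext x
      rw [mu_sum2, e4]
      exact ez_pos _ x
    · rw [hΘ, gm_apply, ← sum_neg_distrib, sum_congr rfl fun s _ => sum_comm, sum_comm]
      refine sum_congr rfl fun j _ => ?_
      simp only [← smul_sum]
      rw [← smul_neg]
      congr 1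
      ext γ' x
      have e5 : ∀ s t, D (sgl C0 _ F fun a => algebraMap C F (ez _ (w j) (s, t, a))) =
          ∑ a, algebraMap C F (ez _ (w j) (s, t, a)) • D (sgl C0 _ F (Pi.single a 1)) := by
        intro s t
        simp only [← map_smul, ← map_sum]
        congr 2
        funext a
        simp [Finset.sum_apply, Pi.single_apply, Algebra.smul_def]
      have e6 : ∀ y : H C0 (W0 tv' tp d v C), (-y).cf γ' = -y.cf γ' := fun _ => rfl
      rw [e6]
      simp only [cf_sum, cf_map]
      rw [mu_sum2, e5]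
      simp only [cf_sum, cf_smulA, Finset.sum_apply, Pi.smul_apply, map_sum, LinearMap.inl_apply,
        LinearMap.coprod_apply, map_zero, add_zero, LinearMap.neg_apply, neg_neg]
      change _ = ∑ a, _
      refine sum_congr rfl fun a _ => ?_
      by_cases h : PX tv' tp d v (x.1.1, x.1.2.1, a)
      · have h' : PY v (x.1.2.2, a) := x.2.2.symm.trans h.2
        rw [ez_pos (p := PY v) _ ⟨_, h'⟩, algebraMap_smul, map_smul, smul_eq_mul, mul_comm]
        simp [g, col, Finset.sum_apply]
      · simp [ez_neg _ h]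
  have h2 : ∑ s, Λ s (fun p => D (gen w α s p)) ∈ LinearMap.range Θ :=
    Submodule.sum_mem _ fun s _ => hΛU s (hU _
      (Submodule.subset_span ⟨1, B.one_mem, s, by rw [Matrix.one_mul]⟩))
  rw [key] at h2
  have h3 := Submodule.add_mem _ h2 (LinearMap.mem_range_self Θ (H.map (LinearMap.inl C0 _ _) g))
  rwa [sub_add_cancel] at h3

theorem sum_sig {J : Type} [Fintype J] (e : J → ℕ) (f : J → ℕ) :
    ∑ s : (Σ j, Fin (e j)), f s.1 = ∑ j, e j * f j := by
  rw [Fintype.sum_sigma]
  exact sum_congr rfl fun j _ => by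
    change ∑ _ : Fin (e j), f j = _
    rw [sum_const, card_univ, Fintype.card_fin, smul_eq_mul]

theorem card_X : Nat.card {x // PX tv' tp d v x} = ∑ t, d (tv' t) * v (tp t) := by
  classical
  rw [Nat.card_eq_fintype_card, Fintype.card_subtype, card_filter, Fintype.sum_prod_type, sum_comm,
    Fintype.sum_prod_type]
  refine sum_congr rfl fun t _ => ?_
  have : ∀ (s : I' d) (a : O' v), (if PX tv' tp d v (s, t, a) then 1 else 0 : ℕ) =
      (if tp t = a.1 then 1 else 0) * if tv' t = s.1 then 1 else 0 := fun s a => by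
    by_cases h1 : tv' t = s.1 <;> by_cases h2 : tp t = a.1 <;> simp [PX, h1, h2]
  simp only [this, ← mul_sum, ← sum_mul]
  rw [sum_sig v fun o => if tp t = o then 1 else 0, sum_sig d fun i => if tv' t = i then 1 else 0]
  simp [mul_comm]

theorem card_Y : Nat.card {y // PY v y} = ∑ o, v o ^ 2 := by
  classical
  rw [Nat.card_eq_fintype_card, Fintype.card_subtype, card_filter, Fintype.sum_prod_type]
  have : ∀ (a : O' v), ∑ a' : O' v, (if PY v (a, a') then 1 else 0 : ℕ) = v a.1 := fun a => by
    have : ∀ (a' : O' v), (if PY v (a, a') then 1 else 0 : ℕ) = if a.1 = a'.1 then 1 else 0 :=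
      fun a' => by by_cases h : a.1 = a'.1 <;> simp [PY, h]
    simp only [this]
    rw [sum_sig v fun o => if a.1 = o then 1 else 0]
    simp
  simp only [this]
  rw [sum_sig v v]
  simp [sq]

end main

end RigA

open RigA in
theorem rig : SRig := by
  intro C0 k F _ _ _ _ _ _ _ _ _ Pt _ _ B hc C _ _ _ _ lam h1 T I O _ _ _ _ tv' tp hsurj α γ hγ S
    hS d v hne
  classical
  let _ : Algebra C0 C := ((algebraMap k C).comp (algebraMap C0 k)).toAlgebra
  have : IsScalarTower C0 k C := IsScalarTower.of_algebraMap_eq fun _ => rfl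
  have : IsScalarTower C0 C F := IsScalarTower.of_algebraMap_eq fun x => by
    rw [IsScalarTower.algebraMap_apply C0 k F, IsScalarTower.algebraMap_apply k C F]; rfl
  have : Module.Finite C0 C := Module.Finite.of_injective (IsScalarTower.toAlgHom C0 C F).toLinearMap
    (algebraMap C F).injective
  have : Module.Finite C0 k := Module.Finite.of_injective (IsScalarTower.toAlgHom C0 k F).toLinearMap
    (algebraMap k F).injective
  have : Module.Finite k C := Module.Finite.of_restrictScalars_finite C0 k C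
  obtain ⟨n, w, hw⟩ := Module.Finite.exists_fin (R := C0) (M := W0 tv' tp d v C)
  let h0 : S0 d S := fun z => ⟨if z.1 = z.2 then mask
      (fun t' t => tv' t = z.2.1 ∧ tv' t' = z.1.1 ∧ tp t' = tp t)
      ((γ * (1 : Matrix Pt Pt F) * α).map lam) else 0, by
    split_ifs
    · exact hS _ _ 1 B.one_mem
    · exact zero_mem _⟩
  have hm : ∀ s s' t t', tv' t = s.1 → tv' t' = s'.1 →
      (h0 (s, s')).1 t t' = if s = s' ∧ t = t' then 1 else 0 := fun s s' t t' ht ht' => by
    by_cases e : s = s'
    · subst e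
      simp only [h0, if_true, true_and]
      rw [mask_apply, Matrix.map_apply, Matrix.mul_one, hγ t t' (ht.trans ht'.symm),
        Matrix.one_apply]
      by_cases e : t = t'
      · subst e; simp [ht, h1]
      · simp [e]
    · simp [h0, e]
  have key := lt_of_gm (k := k) _ (surj B hc lam h1 α γ hγ S hS w hw)
    (fun y => if y.1.1 = y.1.2 then 1 else 0, h0) ?_ ?_
  · rw [finrank_prod, finrank_pi_fintype, finrank_pi_fintype, finrank_pi_fintype, sum_const,
      sum_const, card_univ, card_univ, ← Nat.card_eq_fintype_card, ← Nat.card_eq_fintype_card,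
      card_X, card_Y, smul_eq_mul, smul_eq_mul] at key
    refine key.trans_eq ?_
    congr 1
    rw [Fintype.sum_prod_type, sum_comm]
    simp only [fun i => sum_sig d fun j => finrank k (S i j)]
    rw [sum_sig d fun i => ∑ j, d j * finrank k (S i j)]
    simp only [mul_sum, mul_assoc]
  · intro e
    rcases hne with h | h
    · obtain ⟨i, hi⟩ := Function.ne_iff.1 h
      obtain ⟨t, ht⟩ := hsurj i
      let s : I' d := ⟨i, ⟨0, Nat.pos_of_ne_zero hi⟩⟩
      have e1 : (h0 (s, s)).1 t t = 0 := congrArg (fun z => (z.2 (s, s)).1 t t) e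
      rw [hm s s t t ht ht, if_pos ⟨rfl, rfl⟩] at e1
      exact one_ne_zero e1
    · obtain ⟨o, ho⟩ := Function.ne_iff.1 h
      let a : O' v := ⟨o, ⟨0, Nat.pos_of_ne_zero ho⟩⟩
      have e1 := congrArg (fun z => z.1 ⟨(a, a), rfl⟩) e
      simp at e1
  · intro j
    funext x
    rw [LinearMap.coprod_apply, LinearMap.neg_apply, Pi.add_apply, Pi.neg_apply, Pi.zero_apply,
      neg_add_eq_zero]
    change ∑ a, ez (PY v) (fun y => if y.1.1 = y.1.2 then (1 : C) else 0) (x.1.2.2, a) *
      ez _ (w j) (x.1.1, x.1.2.1, a) =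
      ∑ s, ∑ t, (h0 (x.1.1, s)).1 x.1.2.1 t * ez _ (w j) (s, t, x.1.2.2)
    have e1 : ∀ s t, (h0 (x.1.1, s)).1 x.1.2.1 t * ez _ (w j) (s, t, x.1.2.2) =
        if x.1.2.1 = t then if x.1.1 = s then ez _ (w j) (s, t, x.1.2.2) else 0 else 0 := by
      intro s t
      by_cases h : tv' t = s.1
      · rw [hm _ _ _ _ x.2.1 h]
        by_cases a1 : x.1.1 = s <;> by_cases a2 : x.1.2.1 = t <;> simp [a1, a2]
      · rw [ez_neg _ fun e => h e.1]
        simp
    simp only [e1, sum_ite_eq, mem_univ, if_true]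
    rw [sum_eq_single x.1.2.2]
    · rw [ez_pos (p := PY v) _ ⟨(x.1.2.2, x.1.2.2), rfl⟩, if_pos rfl, one_mul]
    · intro a _ ha
      by_cases h : PY v (x.1.2.2, a)
      · rw [ez_pos (p := PY v) _ ⟨_, h⟩, if_neg ha.symm, zero_mul]
      · rw [ez_neg _ h, zero_mul]
    · simp

end Pool.Agent.MP_bd94e8_al.H89
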